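import Pool.Agent.helper41.HFE.Spec

/-!
# Project HFE (MP_3221a1_ag), row DIV: divisibility by the minimal element
-/

set_option autoImplicit false

open Polynomial Module Pool.Agent.HFN

namespace Pool.Agent.HFE

noncomputable section

/-- nonzero elements of bidegree `(0, 0)` are units -/
theorem DIV_unit {F : AA} (h0 : F ≠ 0) (hx : dX F = 0) (hy : dY F = 0) : IsUnit F := by
  have h1 : F = C (F.coeff 0) := Polynomial.eq_C_of_natDegree_eq_zero hy
  rw [h1, dX_C] at hx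
  have h2 : F.coeff 0 = C ((F.coeff 0).coeff 0) := Polynomial.eq_C_of_natDegree_eq_zero hx
  have h3 : (F.coeff 0).coeff 0 ≠ 0 := by
    intro h
    rw [h, map_zero] at h2
    rw [h2, map_zero] at h1
    exact h0 h1
  rw [h1, h2]
  exact ((isUnit_iff_ne_zero.2 h3).map C).map C

theorem DIV (hCIL : CIL_stmt) : DIV_stmt := by
  intro φ i j p q f hFc hφ hV hMn hpi hqj g s t hgA hgV hsi htj hfg
  by_contra hcon
  have hg0 : g ≠ 0 := by
    rintro rfl
    exact hfg (dvd_zero f)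
  obtain ⟨F, G, c, hrel, hcF, hcG⟩ := UniqueFactorizationMonoid.exists_reduced_factors f hMn.ne g
  subst hcF hcG
  have hc0 : c ≠ 0 := left_ne_zero_of_mul hMn.ne
  have hF0 : F ≠ 0 := right_ne_zero_of_mul hMn.ne
  have hG0 : G ≠ 0 := right_ne_zero_of_mul hg0
  have eX := dX_mul hc0 hF0
  have eY := dY_mul hc0 hF0
  have eX' := dX_mul hc0 hG0
  have eY' := dY_mul hc0 hG0
  obtain ⟨f1, f2⟩ := mem_V.1 hMn.deg
  obtain ⟨g1, g2⟩ := mem_V.1 hgV
  have hμ : tw c φ = 0 := by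
    refine hCIL (tw c φ) F G (s - dX c) (t - dY c) (i - dX c) (j - dY c) ?_ ?_ ?_ ?_ hrel hF0 ?_ ?_ ?_ ?_ ?_ ?_
    · exact Fc_mono (fun h hh => mem_An_tw.2 (Ideal.mul_mem_left _ c hh)) hFc
    · intro h hh
      obtain ⟨h1, h2⟩ := mem_V.1 hh
      refine hV _ (mem_V.2 ⟨(dX_mul_le c h).trans ?_, (dY_mul_le c h).trans ?_⟩)
      · omega
      · omega
    · exact mem_An_tw.2 hMn.mem
    · exact mem_An_tw.2 hgA
    · exact mem_V.2 ⟨by omega, by omega⟩
    · omega
    · omega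
    · omega
    · omega
    · omega
  have hcA : c ∈ An φ := tw_eq_zero.1 hμ
  have hmin := hMn.min c hc0 hcA (mem_V.2 ⟨by omega, by omega⟩)
  have hu : IsUnit F := DIV_unit hF0 (by omega) (by omega)
  apply hfg
  obtain ⟨u, rfl⟩ := hu
  exact ((Units.mul_right_dvd).2 (dvd_mul_right c G))

end

end Pool.Agent.HFE
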