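import Pool.Agent.helper41.HFE.SpecK

/-!
# Project HFE (MP_3221a1_ag), block K, row SUK: the sufficient part (adaptation of `Pool/Agent/helper30/HFE/SUF.lean`)
-/

set_option autoImplicit false

open Polynomial Module Pool.Agent.HFN

namespace Pool.Agent.HFE

noncomputable section

/-- associated elements have the same degrees and the same zeros -/
theorem SUK_assoc (g g' : AA) (hg : g' ≠ 0) (h : Associated g g') :
    dX g = dX g' ∧ dY g = dY g' ∧ ∀ z, (ev z g = 0 ↔ ev z g' = 0) := by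
  obtain ⟨u, hu⟩ := h
  have hu0 : (u : AA) ≠ 0 := u.ne_zero
  have hu1 : ((u⁻¹ : AAˣ) : AA) ≠ 0 := (u⁻¹).ne_zero
  have hg0 : g ≠ 0 := by
    rintro rfl
    apply hg
    rw [← hu, zero_mul]
  have hX : dX (u : AA) = 0 := by
    have h1 := dX_mul hu0 hu1
    rw [Units.mul_inv, dX_one] at h1
    omega
  have hY : dY (u : AA) = 0 := by
    have h1 := dY_mul hu0 hu1
    rw [Units.mul_inv, dY_one] at h1
    omega
  refine ⟨?_, ?_, ?_⟩
  · rw [← hu, dX_mul hg0 hu0, hX, add_zero]
  · rw [← hu, dY_mul hg0 hu0, hY, add_zero]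
  · intro z
    have h2 : ev z (u : AA) ≠ 0 := by
      intro h3
      have h4 : ev z ((u : AA) * ((u⁻¹ : AAˣ) : AA)) = 1 := by rw [Units.mul_inv, ev_one]
      rw [ev_mul, h3, zero_mul] at h4
      exact zero_ne_one h4
    rw [← hu, ev_mul, mul_eq_zero]
    exact ⟨Or.inl, fun h => h.resolve_right h2⟩

/-- exchange of the variables -/
theorem SUK_nn (Z : Finset (ℂ × ℂ)) (g : AA) : nn (Z.image Prod.swap) (sw g) = nn Z g := by
  classical
  unfold nn
  rw [Finset.filter_image, Finset.card_image_of_injective _ Prod.swap_injective]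
  refine congrArg Finset.card (Finset.filter_congr fun z _ => ?_)
  rw [ev_sw, Prod.swap_swap]

theorem SUK : SUK_stmt := by
  intro hRZT hG hN hT hL hCore κ h h' M W b r hκ hκr hD
  obtain ⟨hMr, hcol, hrow, -, hb, -, hbκ, hWM, hWr, hWc⟩ := hD
  obtain ⟨x, y, hx, hy, hW, hgen⟩ := hRZT h h' b M W hb hWr hWc
  have hκκ : 4 ≤ κ * κ := Nat.mul_le_mul hκ hκ
  have hM1 : 1 ≤ M.card := by omega
  obtain ⟨hcard, -⟩ := hT h h' x y M hx hy hcol hrow hM1
  obtain ⟨hirr, hgX, hgY, hgev⟩ := hG b hb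
  have hg0 : g0 b ≠ 0 := hirr.ne_zero
  have hZr : (Pool.Agent.helper29.JZ.ZZ x y M).card = r := hcard.trans hMr
  refine ⟨Pool.Agent.helper29.JZ.ZZ x y M, hZr, ?_⟩
  have hBg : HBk κ x y M W 1 b := by
    intro g hg
    by_cases hass : Associated g (g0 b)
    · obtain ⟨h1, h2, h3⟩ := SUK_assoc g (g0 b) hg0 hass
      refine ⟨h1.trans hgX, h2.trans hgY, fun p _ => ?_⟩
      rw [h3, hgev, sub_eq_zero]
      exact (hW p.1 p.2).symm
    · exfalso
      rcases hg with hg | hg
      · obtain ⟨hgi, hX, hY, i, s, U, hi, hs, hv, -, -⟩ := hg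
        have h4 := hgen g hgi hX.ge hY hass
        rw [hZr] at hv
        rw [hX] at h4
        refine hN κ r (nn (Pool.Agent.helper29.JZ.ZZ x y M) g) i s b (dY g) hκ hi hκr hb hY (by omega) hs hv (Or.inl ?_)
        omega
      · obtain ⟨hgi, hX, hY, i, s, U, hi, hs, hv, -, -⟩ := hg
        have hgi' : Irreducible g := (MulEquiv.irreducible_iff (sw : AA ≃ₐ[ℂ] AA)).1 hgi
        rw [dX_sw] at hX
        rw [dY_sw] at hY hs hv
        rw [Finset.card_image_of_injective _ Prod.swap_injective, hZr, SUK_nn] at hv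
        have h4 := hgen g hgi' hY hX.ge hass
        rw [hX, mul_one] at h4
        refine hN κ r (nn (Pool.Agent.helper29.JZ.ZZ x y M) g) i s b (dX g) hκ hi hκr hb hY (by omega) hs hv (Or.inr ?_)
        exact h4
  intro i j hO
  refine le_antisymm ?_ ?_
  · exact hCore κ h h' x y M W 1 b hκ hx hy hcol hrow hM1 hBg i j (by rw [hMr]; exact hO)
  · refine hL.1 h h' x y M W 1 b (g0 b) hx hy hirr hgX hgY le_rfl hb (Or.inl rfl) (fun p _ => ?_) i j
    rw [hgev, sub_eq_zero]
    exact (hW p.1 p.2).symm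

end

end Pool.Agent.HFE
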